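import Pool.Agent.H910.Ff.Fin

set_option autoImplicit false

/-!
# Truncated counting functions for the discriminant hypersurface and hyperplanes dual to a rational
# normal curve: all algebraic points over function fields, with the optimal coefficient

`k` is an algebraically closed field of characteristic zero and `F` a function field of one variable
over `k`. A point `x = (x 0 : … : x (n + 1))` of `ℙ^(n + 1)` is regarded as the binary form
`∑ l, x l * S ^ (n + 1 - l) * T ^ l` of degree `n + 1`. The divisor is the sum of the discriminant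
hypersurface and of the hyperplanes `H i` of the forms which vanish at the constant points
`(u i : v i)` of the projective line.

For `q ≥ 3` the last inequality of (1) is the inequality of the problem (up to the value of the
constant), for all algebraic points off `D`, since `disc(L/F) = (2 g(L) - 2) - [L : F] (2 g(F) - 2)`;
the pair is `ℙ^(n + 1)` with `D = Disc + ∑ H i`, which does not have normal crossings. The same holds
for the hypersurfaces in (3), with `D` empty, if `q ≥ n + 4`.
-/

namespace Pool.Agent.Results.MP_4dacf8_ag.BinaryFormsDiscriminant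

open FF

section

variable (k F : Type) {L : Type} [Field k] [Field F] [Field L] [Algebra k L] [Algebra F L]

/-- The least order at the place `P` of the coordinates of a point. -/
noncomputable def minOrd {n : ℕ} (P : Place k L) (x : Fin (n + 1) → L) : ℤ :=
  ⨅ j : {j // x j ≠ 0}, P.ord (x j)

/-- The height of the point with homogeneous coordinates `x`: minus the sum over the places of `L`
of the least order of the coordinates. It is `[L : F]` times the height relative to `F`. -/
noncomputable def height {n : ℕ} (x : Fin (n + 1) → L) : ℤ := - ∑ᶠ P : Place k L, minOrd k P x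

/-- The ramification index over `F` of the place `P` of `L`. -/
noncomputable def ramification (P : Place k L) : ℕ :=
  sInf {m : ℕ | 0 < m ∧ ∃ x : F, P.ord (algebraMap F L x) = m}

variable (L) in
/-- The degree of the discriminant of the extension `L` of `F`: the sum over the places of `L` of
`e - 1`, where `e` is the ramification index. It is `[L : F]` times the logarithmic discriminant. -/
noncomputable def discriminant : ℤ := ∑ᶠ P : Place k L, ((ramification k F P : ℤ) - 1)

variable {k F}

/-- The value at `(s, t)` of the binary form `∑ l, x l * S ^ (n - l) * T ^ l`. -/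
def value {n : ℕ} (s t : k) (x : Fin (n + 1) → L) : L :=
  ∑ l : Fin (n + 1), algebraMap k L (s ^ (n - (l : ℕ)) * t ^ (l : ℕ)) * x l

/-- The discriminant, up to a constant factor, of the binary form
`∑ l, x l * S ^ (n + 1 - l) * T ^ l`: the resultant of the two partial derivatives. It is a
form of degree `2 n` in the coefficients. -/
noncomputable def formDisc {n : ℕ} (x : Fin (n + 2) → L) : L :=
  Polynomial.resultant
    (∑ l : Fin (n + 1), Polynomial.C (((l + 1 : ℕ) : L) * x l.succ) * Polynomial.X ^ (l : ℕ))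
    (∑ l : Fin (n + 1), Polynomial.C (((n + 1 - l : ℕ) : L) * x l.castSucc) *
      Polynomial.X ^ (l : ℕ)) n n

/-- The multiplicity of the contact at `P` of the point `x` with the discriminant hypersurface. -/
noncomputable def contact {n : ℕ} (P : Place k L) (x : Fin (n + 2) → L) : ℤ :=
  P.ord (formDisc x) - 2 * n * minOrd k P x

/-- The places `P` of `L` not above a place in `S`. -/
def Off [Algebra k F] (S : Finset (Place k F)) : Set (Place k L) :=
  {P | ∀ v ∈ S, ¬ ∀ y : F, 0 < v.ord y → 0 < P.ord (algebraMap F L y)}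

/-- The set of the places `P` of `L`, not above a place in `S`, at which the point `x` meets the
hyperplane of the forms which vanish at `(s : t)`; it is empty if `x` lies on this hyperplane.
Its cardinality is `[L : F]` times the truncated counting function of this hyperplane. -/
def meets [Algebra k F] {n : ℕ} (S : Finset (Place k F)) (s t : k) (x : Fin (n + 1) → L) :
    Set (Place k L) :=
  {P | P ∈ Off S ∧ value s t x ≠ 0 ∧ minOrd k P x < P.ord (value s t x)}

/-- The points of the projective line over `k`: `none` is `(0 : 1)` and `some c` is `(1 : c)`. -/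
def pt : Option k → k × k
  | none => (0, 1)
  | some c => (1, c)

/-- The zeros in the projective line over `k` of the reduction of the form `x` at `P`. -/
def zeros {n : ℕ} (P : Place k L) (x : Fin (n + 1) → L) : Set (Option k) :=
  {z | value (pt z).1 (pt z).2 x = 0 ∨ minOrd k P x < P.ord (value (pt z).1 (pt z).2 x)}

end

/-- Let `(u i : v i)`, `i < q`, be distinct points of the projective line over `k`, let `H i` be the
hyperplane of the binary forms of degree `n + 1` which vanish at `(u i : v i)`, and let `S` be a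
finite set of places of `F`.

(1) There is a constant `C` such that, for every finite extension `L` of `F` and every point `x` of
`ℙ^(n + 1)` over `L` outside the discriminant hypersurface,
* `(q - 2) h(x) ≤ ∑ i, N i + ∑ δ P + (n + 1) disc(L/F) + C [L : F]`, the second sum over the places
  not above `S`, where `δ P` is `n + 1` minus the number of the distinct zeros of the reduction of
  `x` at `P`, and `N i` is the number of places not above `S` at which `x` meets `H i`;
* `0 ≤ δ P ≤ n`, `δ P ≤ contact P`, and `δ P = 0` if and only if `contact P = 0`, so that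
  `∑ δ P` is at most the counting function of the discriminant hypersurface truncated at level `n`;
* `(q - 2) h(x) ≤ (n + 1) (N + disc(L/F)) + C [L : F]`, where `N` is the number of the places not
  above `S` at which `x` meets the discriminant hypersurface or one of the `H i`.

(2) If `q ≥ 2`, the coefficient `q - 2` is optimal, even for points over `F` and outside a given
hypersurface `G = 0`, and even if `δ P` is replaced by `min n (contact P)`.

(3) Let `I` be a set of indices, `d = 2 n + #I`, let `l ≠ 0` be in `F`, and let `X` be the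
hypersurface `w ^ d = l * disc(x) * ∏ i ∈ I, H i (x)` of degree `d` in `ℙ^(n + 2)`. There is a
constant `C` such that, for every finite extension `L` of `F` and every point `(x : w)` of `X` over
`L` with `w ≠ 0`, `(q - n - 3) h(x) ≤ ∑ i ∉ I, N i + (n + 1) disc(L/F) + C [L : F]`. With
`N = n + 1` and `s = q - #I`, the coefficient `q - n - 3` is `d + s - 3 N`. -/
theorem result (k F : Type) [Field k] [IsAlgClosed k] [CharZero k] [Field F] [Algebra k F]
    [IsFF k F] (n q : ℕ) (u v : Fin q → k) (h0 : ∀ i, u i ≠ 0 ∨ v i ≠ 0)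
    (huv : ∀ i j, i ≠ j → u i * v j ≠ u j * v i) (S : Finset (Place k F)) :
    (∃ C : ℕ, ∀ (L : Type) [Field L] [Algebra k L] [Algebra F L] [IsScalarTower k F L]
        [FiniteDimensional F L] (x : Fin (n + 2) → L), x ≠ 0 → formDisc x ≠ 0 →
      (∀ i, (meets S (u i) (v i) x).Finite) ∧ {P : Place k L | contact P x ≠ 0}.Finite ∧
      ((q : ℤ) - 2) * height k x ≤ ∑ i, ((meets S (u i) (v i) x).ncard : ℤ) +
        ∑ᶠ P ∈ (Off S : Set (Place k L)), ((n : ℤ) + 1 - (zeros P x).ncard) +
          (n + 1) * discriminant k F L + C * Module.finrank F L ∧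
      (∀ P : Place k L, (zeros P x).Finite ∧ (0 : ℤ) ≤ n + 1 - (zeros P x).ncard ∧
        (n : ℤ) + 1 - (zeros P x).ncard ≤ min (n : ℤ) (contact P x) ∧
        ((zeros P x).ncard = n + 1 ↔ contact P x = 0)) ∧
      ((q : ℤ) - 2) * height k x ≤ (n + 1) * (({P : Place k L | P ∈ Off S ∧
        (0 < contact P x ∨ ∃ i, P ∈ meets S (u i) (v i) x)}.ncard : ℤ) + discriminant k F L) +
          C * Module.finrank F L) ∧
    (2 ≤ q → ∀ (G : MvPolynomial (Fin (n + 2)) F), G ≠ 0 → ∀ κ : ℝ, (q : ℝ) - 2 < κ → ∀ C : ℝ,
      ∃ x : Fin (n + 2) → F, formDisc x ≠ 0 ∧ (∀ i, value (u i) (v i) x ≠ 0) ∧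
        MvPolynomial.aeval x G ≠ 0 ∧
        ((∑ i, ((meets S (u i) (v i) x).ncard : ℤ) +
          ∑ᶠ P ∈ (Off S : Set (Place k F)), min (n : ℤ) (contact P x) : ℤ) : ℝ) + C <
            κ * (height k x : ℝ)) ∧
    (∀ (I : Finset (Fin q)) (l : F), l ≠ 0 → ∃ C : ℕ, ∀ (L : Type) [Field L] [Algebra k L]
        [Algebra F L] [IsScalarTower k F L] [FiniteDimensional F L] (x : Fin (n + 2) → L) (w : L),
      x ≠ 0 → w ≠ 0 →
      w ^ (2 * n + I.card) = algebraMap F L l * formDisc x * ∏ i ∈ I, value (u i) (v i) x →
      ((q : ℤ) - n - 3) * height k x ≤ ∑ i ∈ Iᶜ, ((meets S (u i) (v i) x).ncard : ℤ) +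
        (n + 1) * discriminant k F L + C * Module.finrank F L) := by
  have hzz : ∀ (L : Type) [Field L] [Algebra k L] (m : ℕ) (P : Place k L) (x : Fin (m + 1) → L),
      zeros P x = Pool.Agent.H910.Ff.zst P x := by
    intro L _ _ m P x
    ext z
    cases z <;> rfl
  have hdd : ∀ (L : Type) [Field L] (x : Fin (n + 2) → L),
      formDisc x = Pool.Agent.H910.Dsc.dsf n (Pool.Agent.Y216.pol x) := fun L _ x =>
    Pool.Agent.H910.Dsc.bdisc_eq x
  have hct : ∀ (L : Type) [Field L] [Algebra k L] (P : Place k L) (x : Fin (n + 2) → L),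
      contact P x = P.ord (Pool.Agent.H910.Dsc.dsf n (Pool.Agent.Y216.pol x)) -
        2 * n * Pool.Agent.W603.PV.pord P x := by
    intro L _ _ P x
    unfold contact
    rw [hdd]
    rfl
  have hmt : ∀ (L : Type) [Field L] [Algebra k L] [Algebra F L] (m : ℕ) (x : Fin (m + 1) → L)
      (i : Fin q), meets S (u i) (v i) x =
        {P : Place k L | P ∈ (Off S : Set (Place k L)) ∧ i ∈ Pool.Agent.H910.Ff.mt u v P x} := by
    intro L _ _ _ m x i
    classical
    ext P
    unfold Pool.Agent.H910.Ff.mt
    constructor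
    · rintro ⟨h1, h2⟩
      exact ⟨h1, Finset.mem_filter.2 ⟨Finset.mem_univ _, h2⟩⟩
    · rintro ⟨h1, h2⟩
      exact ⟨h1, (Finset.mem_filter.1 h2).2⟩
  have hloc : ∀ (L : Type) [Field L] [Algebra k L] [IsFF k L] (x : Fin (n + 2) → L),
      (∃ j, x j ≠ 0) → formDisc x ≠ 0 → ∀ P : Place k L, (zeros P x).Finite ∧
        (0 : ℤ) ≤ n + 1 - (zeros P x).ncard ∧
        (n : ℤ) + 1 - (zeros P x).ncard ≤ min (n : ℤ) (contact P x) ∧
        ((zeros P x).ncard = n + 1 ↔ contact P x = 0) := by
    intro L _ _ _ x hx hd P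
    rw [hdd] at hd
    rw [hzz, hct]
    have h1 := Pool.Agent.H910.Ff.zst_le P hx
    have h2 := Pool.Agent.H910.Ff.zst_pos P hx
    have h3 := Pool.Agent.H910.Ff.zst_ge P hx hd
    push_cast at h3
    refine ⟨Pool.Agent.H910.Ff.zst_finite P hx, by omega, le_min (by omega) h3,
      fun h4 => Pool.Agent.H910.Ff.contact_zero P hx hd h4, fun h4 => ?_⟩
    rw [h4] at h3
    omega
  refine ⟨?_, ?_, ?_⟩
  · obtain ⟨C, hC⟩ := Pool.Agent.H910.Ff.family h0 huv (n + 1) S
    refine ⟨C, fun L _ _ _ _ _ x hx0 hd => ?_⟩
    have hL : IsFF k L := Pool.Agent.W603.PV.isFF_of_finite (F := F)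
    have hchL : CharZero L := charZero_of_injective_algebraMap (algebraMap k L).injective
    have hx : ∃ j, x j ≠ 0 := by
      by_contra hcon
      push Not at hcon
      exact hx0 (funext hcon)
    have hl := hloc L x hx hd
    have hd' : Pool.Agent.H910.Dsc.dsf n (Pool.Agent.Y216.pol x) ≠ 0 := by rwa [← hdd]
    obtain ⟨hsq, hdeg⟩ := Pool.Agent.H910.Ff.disc_sqf hx hd'
    obtain ⟨h1, h2, h3⟩ := hC L x hsq hdeg
    have e1 : {P : Place k L | contact P x ≠ 0} =
        {P : Place k L | (Pool.Agent.H910.Ff.zst P x).ncard ≠ n + 1} := by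
      ext P
      have h4 := (hl P).2.2.2
      rw [hzz] at h4
      exact (not_congr h4).symm
    have e2 : ∑ᶠ P ∈ (Off S : Set (Place k L)), ((n : ℤ) + 1 - (zeros P x).ncard) =
        ∑ᶠ P ∈ {P : Place k L | ∀ w ∈ S, ¬ Pool.Agent.W603.PV.Over P w},
          (((n + 1 : ℕ) : ℤ) - (Pool.Agent.H910.Ff.zst P x).ncard) := by
      simp only [hzz]
      push_cast
      rfl
    have e3 : ∀ i, (meets S (u i) (v i) x) = {P : Place k L |
        (∀ w ∈ S, ¬ Pool.Agent.W603.PV.Over P w) ∧ i ∈ Pool.Agent.H910.Ff.mt u v P x} :=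
      fun i => hmt L (n + 1) x i
    have h4 : ((q : ℤ) - 2) * height k x ≤ ∑ i, ((meets S (u i) (v i) x).ncard : ℤ) +
        ∑ᶠ P ∈ (Off S : Set (Place k L)), ((n : ℤ) + 1 - (zeros P x).ncard) +
          (n + 1) * discriminant k F L + C * Module.finrank F L := by
      rw [e2]
      simp only [e3]
      push_cast at h3
      exact h3
    refine ⟨fun i => by rw [e3]; exact h1 i, by rw [e1]; exact h2, h4, hl, ?_⟩
    have h5 := (Pool.Agent.H910.Ff.sum_le h0 huv hx h2
      {P : Place k L | ∀ w ∈ S, ¬ Pool.Agent.W603.PV.Over P w} Finset.univ).2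
    simp only [Finset.mem_univ, true_and] at h5
    have e4 : {P : Place k L | P ∈ (Off S : Set (Place k L)) ∧
        (0 < contact P x ∨ ∃ i, P ∈ meets S (u i) (v i) x)} =
        {P : Place k L | P ∈ {P : Place k L | ∀ w ∈ S, ¬ Pool.Agent.W603.PV.Over P w} ∧
          ((Pool.Agent.H910.Ff.zst P x).ncard ≠ n + 1 ∨
            ∃ i, i ∈ Pool.Agent.H910.Ff.mt u v P x)} := by
      ext P
      have h6 := (hl P).2.2.2
      have h7 := (hl P).2.2.1
      have h8 := (hl P).2.1
      rw [hzz] at h6 h7 h8
      have h9 : 0 < contact P x ↔ (Pool.Agent.H910.Ff.zst P x).ncard ≠ n + 1 := by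
        rw [Ne, h6]
        have h10 := h7.trans (min_le_right _ _)
        constructor
        · intro h
          omega
        · intro h
          omega
      constructor
      · rintro ⟨ha, hb⟩
        refine ⟨ha, hb.imp h9.1 ?_⟩
        rintro ⟨i, hi⟩
        rw [e3] at hi
        exact ⟨i, hi.2⟩
      · rintro ⟨ha, hb⟩
        refine ⟨ha, hb.imp h9.2 ?_⟩
        rintro ⟨i, hi⟩
        refine ⟨i, ?_⟩
        rw [e3]
        exact ⟨ha, hi⟩
    rw [e4]
    rw [e2] at h4
    simp only [e3] at h4
    have e5 : ∀ i : Fin q, {P : Place k L | P ∈ {P : Place k L | ∀ w ∈ S,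
        ¬ Pool.Agent.W603.PV.Over P w} ∧ i ∈ Pool.Agent.H910.Ff.mt u v P x} =
        {P : Place k L | (∀ w ∈ S, ¬ Pool.Agent.W603.PV.Over P w) ∧
          i ∈ Pool.Agent.H910.Ff.mt u v P x} := fun i => rfl
    simp only [e5] at h5
    push_cast at h5 h4 ⊢
    linarith
  · intro hq G hG κ hκ C
    have hchF : CharZero F := charZero_of_injective_algebraMap (algebraMap k F).injective
    obtain ⟨Q, hQ, hQe⟩ := Pool.Agent.H910.Ff.exists_disc_poly F n
    obtain ⟨x, T0, h1, h2, h3, h4, h5⟩ := Pool.Agent.H910.Ff.opt (n := n + 1) hq (by omega) huv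
      (mul_ne_zero hG hQ) hκ C
    rw [map_mul] at h1
    have hGx := left_ne_zero_of_mul h1
    have hdx : formDisc x ≠ 0 := by
      have h6 := right_ne_zero_of_mul h1
      rw [hQe] at h6
      exact h6
    have hx : ∃ j, x j ≠ 0 := by
      by_contra hcon
      push Not at hcon
      exact h2 ⟨0, by omega⟩ (Finset.sum_eq_zero fun j _ => by rw [hcon j, mul_zero])
    have hl := hloc F x hx hdx
    refine ⟨x, hdx, h2, hGx, lt_of_le_of_lt (add_le_add_left ?_ C) h5⟩
    have h6 : ∑ i, ((meets S (u i) (v i) x).ncard : ℤ) ≤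
        ∑ i, ({P : Place k F | i ∈ Pool.Agent.H910.Ff.mt u v P x}.ncard : ℤ) := by
      refine Finset.sum_le_sum fun i _ => ?_
      rw [hmt]
      have h8 : {P : Place k F | P ∈ (Off S : Set (Place k F)) ∧
          i ∈ Pool.Agent.H910.Ff.mt u v P x} ⊆
          {P : Place k F | i ∈ Pool.Agent.H910.Ff.mt u v P x} := fun P hP => hP.2
      exact_mod_cast Set.ncard_le_ncard h8 (h4 i)
    have h7 : ∑ᶠ P ∈ (Off S : Set (Place k F)), min (n : ℤ) (contact P x) ≤
        ((n + 1 : ℕ) : ℤ) * T0.card := by
      classical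
      rw [finsum_mem_eq_sum_of_inter_support_eq (s := (Off S : Set (Place k F)))
        (t := T0.filter fun P => P ∈ (Off S : Set (Place k F)))]
      · refine (Finset.sum_le_sum (g := fun _ => ((n + 1 : ℕ) : ℤ)) fun P _ => ?_).trans ?_
        · refine (min_le_left _ _).trans ?_
          push_cast
          linarith
        · rw [Finset.sum_const, nsmul_eq_mul, mul_comm]
          refine mul_le_mul_of_nonneg_left ?_ (by positivity)
          exact_mod_cast Finset.card_filter_le _ _
      · ext P
        constructor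
        · rintro ⟨ha, hb⟩
          refine ⟨Finset.mem_coe.2 (Finset.mem_filter.2 ⟨?_, ha⟩), hb⟩
          by_contra hP
          apply hb
          have h8 := (hl P).2.2.2
          rw [hzz] at h8
          change min (n : ℤ) (contact P x) = 0
          rw [h8.1 (h3 P hP)]
          exact min_eq_right (by positivity)
        · rintro ⟨ha, hb⟩
          exact ⟨(Finset.mem_filter.1 (Finset.mem_coe.1 ha)).2, hb⟩
    exact_mod_cast add_le_add h6 h7
  · intro I l hl0
    obtain ⟨C, hC⟩ := Pool.Agent.H910.Ff.family h0 huv (n + 1) S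
    refine ⟨C + 4 * (n + 1) * (Pool.Agent.W603.LV.hgt k l).toNat,
      fun L _ _ _ _ _ x w hx0 hw he => ?_⟩
    have hL : IsFF k L := Pool.Agent.W603.PV.isFF_of_finite (F := F)
    have hchL : CharZero L := charZero_of_injective_algebraMap (algebraMap k L).injective
    have hx : ∃ j, x j ≠ 0 := by
      by_contra hcon
      push Not at hcon
      exact hx0 (funext hcon)
    have hl : algebraMap F L l ≠ 0 := (map_ne_zero _).2 hl0
    have he' : w ^ (2 * n + I.card) = algebraMap F L l *
        Pool.Agent.H910.Dsc.dsf n (Pool.Agent.Y216.pol x) *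
        ∏ i ∈ I, Pool.Agent.H910.Ff.vl (u i) (v i) x := by
      rw [← hdd]
      exact he
    have hne : algebraMap F L l * Pool.Agent.H910.Dsc.dsf n (Pool.Agent.Y216.pol x) *
        ∏ i ∈ I, Pool.Agent.H910.Ff.vl (u i) (v i) x ≠ 0 := by
      rw [← he']
      exact pow_ne_zero _ hw
    have hd' := right_ne_zero_of_mul (left_ne_zero_of_mul hne)
    obtain ⟨hsq, hdeg⟩ := Pool.Agent.H910.Ff.disc_sqf hx hd'
    obtain ⟨h1, h2, h3⟩ := hC L x hsq hdeg
    obtain ⟨h4, h5⟩ := Pool.Agent.H910.Ff.sum_le h0 huv hx h2
      {P : Place k L | ∀ w ∈ S, ¬ Pool.Agent.W603.PV.Over P w} I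
    have h6 := Pool.Agent.H910.Ff.cyclic h0 hx I hl hw he' _ h4 fun P hP => hP.2
    rw [Pool.Agent.W603.PV.hgt_algebraMap] at h6
    have h7 : (0 : ℤ) ≤ Pool.Agent.W603.LV.hgt k l := Pool.Agent.W603.LV.hgt_nonneg l
    have h8 : ((Pool.Agent.W603.LV.hgt k l).toNat : ℤ) = Pool.Agent.W603.LV.hgt k l :=
      Int.toNat_of_nonneg h7
    have e3 : ∀ i, (meets S (u i) (v i) x) = {P : Place k L |
        (∀ w ∈ S, ¬ Pool.Agent.W603.PV.Over P w) ∧ i ∈ Pool.Agent.H910.Ff.mt u v P x} :=
      fun i => hmt L (n + 1) x i
    have e5 : ∀ i : Fin q, {P : Place k L | P ∈ {P : Place k L | ∀ w ∈ S,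
        ¬ Pool.Agent.W603.PV.Over P w} ∧ i ∈ Pool.Agent.H910.Ff.mt u v P x} =
        {P : Place k L | (∀ w ∈ S, ¬ Pool.Agent.W603.PV.Over P w) ∧
          i ∈ Pool.Agent.H910.Ff.mt u v P x} := fun i => rfl
    simp only [e5] at h5
    simp only [e3]
    rw [← Finset.sum_add_sum_compl I] at h3
    have h9 := mul_le_mul_of_nonneg_left h6 (by positivity : (0 : ℤ) ≤ ((n + 1 : ℕ) : ℤ))
    have h10 := h5.trans h9
    have e6 : height k x = Pool.Agent.W603.PV.pht k x := rfl
    have e7 : discriminant k F L = Pool.Agent.W603.PV.disc k F L := rfl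
    rw [e6, e7]
    push_cast at h3 h10 ⊢
    rw [h8]
    linarith

end Pool.Agent.Results.MP_4dacf8_ag.BinaryFormsDiscriminant
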