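import Pool.Agent.H435.CT.Ptd

/-!
# Vojta's inequality for very general complete intersections

Let `k` be an algebraically closed field of characteristic zero, for example the field of complex
numbers, and let `X` be the complete intersection in projective space of dimension `n` of the
hypersurfaces `G a = 0`, for `a` in a finite set `A`, of degrees `d a > 0`. We suppose that the
coefficients of all the forms `G a` are together algebraically independent over the rational numbers
(a very general complete intersection), and that the dimension `δ = n - |A|` of `X` is positive. The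
canonical bundle of `X` is `O(κ)`, where `κ = ∑ d a - n - 1`.

(1) Suppose that `2 κ ≥ δ`, or `δ = 3` and `κ = 1`. (This includes all `X` of general type and
dimension at most three.) Let `H` be a form. There is a constant `B` such that
`0 < deg f ≤ B (2 g - 2)` for all nonconstant maps `f` from smooth projective curves, of any genus
`g`, to `X` whose image is not contained in `H = 0`, if and only if `H` vanishes on all lines
contained in `X`. Some forms `H` with this property do not vanish on `X`. So the inequality of Vojta
holds for `X`, and the smallest possible exceptional set is the closure of the union of the lines.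

(2) Suppose that `δ ≥ 2` and that `X` is not a surface with `κ = 0` (a `K3` surface). The following
are equivalent: there is a constant `B` such that `0 < deg f ≤ B (2 g - 2)` for all nonconstant maps
`f` from smooth projective curves to `X` (`X` is algebraically hyperbolic); for every curve, the
degrees of the maps from this curve to `X` are bounded; `X` contains no lines; `κ ≥ δ - 2`, that is,
`2 n - 1 ≤ ∑ (d a + 1)`.

The curve is given by its function field `L` (a function field of one variable over `k`), whose
places are the points of the smooth projective curve, and the map by its homogeneous coordinates `x`,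
which are elements of `L`. For the normalisation of a curve `C` in `X` the height of `x` is the
degree of `C`.
-/

set_option autoImplicit false

namespace Pool.Agent.Results.MP_4dacf8_ag.CompleteIntersections

open FF MvPolynomial

section

variable (k : Type) {L : Type} [Field k] [Field L] [Algebra k L] {n : ℕ}

/-- The least order at the place `P` of the coordinates of a point of projective space. -/
noncomputable def minOrd (P : Place k L) (x : Fin (n + 1) → L) : ℤ :=
  ⨅ j : {j // x j ≠ 0}, P.ord (x j)

/-- The height of the point with homogeneous coordinates `x`: minus the sum over the places of `L`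
of the least order of the coordinates, that is, the degree of the pull-back of `O(1)` to the curve
with function field `L`. -/
noncomputable def height (x : Fin (n + 1) → L) : ℤ := - ∑ᶠ P : Place k L, minOrd k P x

variable (L) in
open Classical in
/-- `2 g - 2`, where `g` is the genus of the curve with function field `L`: minus the degree of the
divisor of a nonzero rational vector field `D` (a derivation of `L` over `k`), whose order at the
place `P` is the order of `D t`, where `t` is an element of order `1` at `P`. It does not depend on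
the choice of `D` and of the elements `t`. -/
noncomputable def canonicalDegree : ℤ :=
  if h : ∃ D : Derivation k L L, D ≠ 0 then - ∑ᶠ P : Place k L, P.ord (h.choose P.surj.choose)
  else 0

/-- The point `x` of projective space does not come from a point over `k`: it gives a nonconstant
morphism from the curve with function field `L` to projective space. -/
def Nonconstant (x : Fin (n + 1) → L) : Prop := ∃ a b, x b ≠ 0 ∧ Transcendental k (x a / x b)

end

section

variable {k A : Type} [Field k] {n : ℕ}

/-- Vojta's inequality for the nonconstant maps from curves to `G a = 0` (for all `a`) whose image is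
not contained in `H = 0`: the number `2 g - 2` is positive, and the degree of the map is at most `B`
times this number. -/
def VojtaOutside (G : A → MvPolynomial (Fin (n + 1)) k) (H : MvPolynomial (Fin (n + 1)) k) : Prop :=
  ∃ B : ℕ, ∀ (L : Type) [Field L] [Algebra k L] [IsFF k L] (x : Fin (n + 1) → L),
    Nonconstant k x → (∀ a, aeval x (G a) = 0) → aeval x H ≠ 0 →
    0 < canonicalDegree k L ∧ height k x ≤ B * canonicalDegree k L

/-- For every curve, the degrees of the maps from this curve to `G a = 0` (for all `a`) are
bounded. -/
def Bounded (G : A → MvPolynomial (Fin (n + 1)) k) : Prop :=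
  ∀ (L : Type) [Field L] [Algebra k L] [IsFF k L], ∃ B : ℤ, ∀ x : Fin (n + 1) → L,
    x ≠ 0 → (∀ a, aeval x (G a) = 0) → height k x ≤ B

/-- A line, given by a vector space `W` of dimension two, that is contained in `G a = 0` for all
`a`. -/
def IsLine (G : A → MvPolynomial (Fin (n + 1)) k) (W : Submodule k (Fin (n + 1) → k)) : Prop :=
  Module.finrank k W = 2 ∧ ∀ a, ∀ v ∈ W, eval v (G a) = 0

end

theorem result {k : Type} [Field k] [IsAlgClosed k] [CharZero k] {n : ℕ} {A : Type} [Fintype A]
    (hA : Fintype.card A < n) {d : A → ℕ} (hd0 : ∀ a, 0 < d a)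
    -- the forms; their coefficients are algebraically independent over the rational numbers
    (G : A → MvPolynomial (Fin (n + 1)) k) (hG : ∀ a, (G a).IsHomogeneous (d a))
    (hgen : AlgebraicIndependent ℚ
      fun p : (a : A) × {I : Fin (n + 1) →₀ ℕ // I.degree = d a} => (G p.1).coeff p.2.1) :
    -- (1) the exceptional set
    (3 * n + 2 ≤ ∑ a, (d a + 1) + ∑ a, d a ∨ (n = Fintype.card A + 3 ∧ ∑ a, d a = n + 2) →
      (∀ (H : MvPolynomial (Fin (n + 1)) k) (e : ℕ), H.IsHomogeneous e →
        (VojtaOutside G H ↔ ∀ W, IsLine G W → ∀ v ∈ W, eval v H = 0)) ∧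
      ∃ (H : MvPolynomial (Fin (n + 1)) k) (e : ℕ), H.IsHomogeneous e ∧
        (∃ v, v ≠ 0 ∧ (∀ a, eval v (G a) = 0) ∧ eval v H ≠ 0) ∧ VojtaOutside G H) ∧
    -- (2) the algebraically hyperbolic complete intersections
    (Fintype.card A + 2 ≤ n → ¬ (n = Fintype.card A + 2 ∧ ∑ a, d a = n + 1) →
      List.TFAE [VojtaOutside G 1, Bounded G, ∀ W, ¬ IsLine G W,
        2 * n - 1 ≤ ∑ a, (d a + 1)]) := by
  classical
  have hn : 1 ≤ n := by omega
  have hsum : ∑ a, (d a + 1) = ∑ a, d a + Fintype.card A := by
    rw [Finset.sum_add_distrib, Finset.sum_const, Finset.card_univ, smul_eq_mul, mul_one]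
  have hcan : ∀ (L : Type) [Field L] [Algebra k L] [IsFF k L],
      canonicalDegree k L = Pool.Agent.W603.LV.canDeg k L := by
    intro L _ _ _
    have h : ∃ D : Derivation k L L, D ≠ 0 := Pool.Agent.W603.LV.exists_der
    unfold canonicalDegree
    rw [dif_pos h, Pool.Agent.W603.LV.canDeg_eq h.choose_spec]
    rfl
  have hne0 : ∀ {L : Type} [Field L] [Algebra k L] {x : Fin (n + 1) → L}, Nonconstant k x →
      x ≠ 0 := by
    rintro L _ _ x ⟨a, b, hb, -⟩ rfl
    exact hb rfl
  have key : (3 * n + 2 ≤ ∑ a, (d a + 1) + ∑ a, d a ∨
      (n = Fintype.card A + 3 ∧ ∑ a, d a = n + 2)) →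
      ∀ (H : MvPolynomial (Fin (n + 1)) k) (e : ℕ), H.IsHomogeneous e →
        (VojtaOutside G H ↔ ∀ W, IsLine G W → ∀ v ∈ W, eval v H = 0) := by
    intro hR H e hH
    constructor
    · rintro ⟨B, hB⟩ W hW
      refine Pool.Agent.H435.CT.line_of_deg hG hH (fun L _ _ _ x hx hne hab => ?_) ⟨hW.1, hW.2⟩
      rw [← hcan]
      exact (hB L x hab hx.2 hne).1
    · intro h
      obtain ⟨B, hB⟩ := Pool.Agent.H435.CT.deg_form (k0 := ℚ) hn hd0 hG hgen
        (hR.imp (fun h => by omega) id) hH h
      refine ⟨B, fun L _ _ _ x hx hxG hne => ?_⟩
      obtain ⟨a, b, hb, hab⟩ := hx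
      have h3 := hB L x ⟨hne0 ⟨a, b, hb, hab⟩, hxG⟩ hne
      have hxa : x a ≠ 0 := by
        intro h
        apply hab
        rw [h, zero_div]
        exact isAlgebraic_zero
      have hp0 : 0 < Pool.Agent.W603.PV.pht k x := by
        have h1 := Pool.Agent.W603.CX.hgt_le_pht (k := k) x hxa hb
        by_contra h2
        push Not at h2
        obtain ⟨c, hc⟩ := Pool.Agent.W603.LV.const_of_hgt (h1.trans h2)
        apply hab
        rw [hc]
        exact isAlgebraic_algebraMap _
      have h4 : 0 < Pool.Agent.W603.LV.canDeg k L := by
        by_contra hcon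
        rw [max_eq_right (by omega), mul_zero] at h3
        linarith
      rw [hcan]
      rw [max_eq_left h4.le] at h3
      exact ⟨h4, h3⟩
  -- a point of the complete intersection
  have hpt : ∃ v : Fin (n + 1) → k, v ≠ 0 ∧ ∀ a, eval v (G a) = 0 := by
    obtain ⟨I0, hI0, h0, hind⟩ := Pool.Agent.H435.SC.flat_data hgen
    have hcu : (Finset.univ : Finset A).card = Fintype.card A := Finset.card_univ
    obtain ⟨i, hi⟩ : ∃ i : Fin (n + 1 - (Finset.univ : Finset A).card), i = i :=
      ⟨⟨0, by omega⟩, rfl⟩
    obtain ⟨v, hv1, -, hv3⟩ := Pool.Agent.Y741.exists_good (k := ℚ) hd0 Finset.univ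
      (by rw [hcu]; omega) G hG _ h0 hind (H := X i) (X_ne_zero i)
    refine ⟨v, ?_, fun a => hv1 a (Finset.mem_univ a)⟩
    rintro rfl
    rw [eval_X] at hv3
    exact hv3 rfl
  refine ⟨fun hR => ⟨key hR, ?_⟩, fun hdim hK3 => ?_⟩
  · rcases hR with hR | hR
    · obtain ⟨H, e, h1, ⟨v, hv1, hv2⟩, h3⟩ := Pool.Agent.H435.SC.exists_form (k := ℚ) hA hd0
        (by omega) G hG hgen
      refine ⟨H, e, h1, ?_, (key (Or.inl hR) H e h1).2 (Pool.Agent.H435.SC.van_zero h1 h3)⟩
      by_cases hv0 : v = 0
      · obtain ⟨w, hw0, hw⟩ := hpt
        refine ⟨w, hw0, hw, ?_⟩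
        have he : e = 0 := by
          by_contra he
          apply hv2
          have h4 := Pool.Agent.TH145.GH.eval_smul_hom h1 v 0
          rw [zero_smul, zero_pow he, zero_mul] at h4
          rw [hv0]
          exact h4
        subst he
        have h4 := Pool.Agent.TH145.GH.eval_smul_hom h1 w 0
        rw [zero_smul, pow_zero, one_mul] at h4
        rw [← h4, ← hv0]
        exact hv2
      · exact ⟨v, hv0, hv1, hv2⟩
    · obtain ⟨w, hw0, hw⟩ := hpt
      refine ⟨1, 0, isHomogeneous_one _ _, ⟨w, hw0, hw, by rw [map_one]; exact one_ne_zero⟩,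
        (key (Or.inr hR) 1 0 (isHomogeneous_one _ _)).2 fun W hW => ?_⟩
      exact absurd ⟨hW.1, hW.2⟩ (Pool.Agent.H435.CT.no_lineX (k0 := ℚ) hG hgen (by omega) W)
  · have h1 := Pool.Agent.H435.CT.tfae_all (k0 := ℚ) hdim (fun h h' => hK3 ⟨h, h'⟩) hd0 hG hgen
    have e1 := h1.out 0 5
    have hl : (∀ W, ¬ Pool.Agent.Y741.LineX G W) ↔ ∀ W, ¬ IsLine G W :=
      forall_congr' fun W => not_congr ⟨fun h => ⟨h.1, h.2⟩, fun h => ⟨h.1, h.2⟩⟩
    tfae_have 1 ↔ 3 := by
      refine Iff.trans ?_ (e1.trans hl)
      refine exists_congr fun B => ⟨fun h L _ _ _ x hx hab => ?_, fun h L _ _ _ x hab hx _ => ?_⟩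
      · rw [← hcan]
        exact h L x hab hx.2 (by rw [map_one]; exact one_ne_zero)
      · rw [hcan]
        exact h L x ⟨hne0 hab, hx⟩ hab
    tfae_have 3 ↔ 2 := by
      refine hl.symm.trans ((h1.out 5 1).trans ?_)
      exact ⟨fun h L _ _ _ => (h L).imp fun B h x hx hxG => h x ⟨hx, hxG⟩,
        fun h L _ _ _ => (h L).imp fun B h x hx => h x hx.1 hx.2⟩
    tfae_have 3 ↔ 4 := hl.symm.trans (h1.out 5 6)
    tfae_finish

end Pool.Agent.Results.MP_4dacf8_ag.CompleteIntersections
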