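import Mathlib
import Pool.Agent.H917.M.X9

/-!
MP_4dacf8_ag, Q1: Vojta's height inequality with truncated counting function over function fields,
for the split pairs `(X̄ × C, D × C)` such that some symmetric power of the logarithmic cotangent
bundle of `(X̄, D)` is generated by global sections, and for all closed subvarieties `V` of
`X = X̄ \ D`.

The boundary `D` of the projective variety `X̄` with the ideal `p` is given by boundary coordinates:
in the chart where the `j`-th coordinate is not zero, `D` is the union of the hyperplane sections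
given by the coordinates in `B j` (`BdC p B`), and `X = X̄ \ D` is the set of the points `x` with
`OffB B x`. Every pair (smooth projective variety, divisor with simple normal crossings) has such
an embedding in a projective space, in which each component of `D` is, in each chart, the divisor
of one of the coordinates: take line bundles `A` and `A(-D_i)`, all very ample, with generating
sections `a_j` (among them all `s_i t^(i)_c`, where `s_i` is the section of `O(D_i)` with the
divisor `D_i`) and `t^(i)_c`, and the coordinates `a_j * ∏_i t^(i)_(c_i)`.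

`F` is the function field of a smooth projective curve (`IsFF ℂ F`), `L` a finite extension of `F`
and `x` the vector of homogeneous coordinates of a point of `V` over `L`. The places of `L` are the
points of the smooth projective curve with the function field `L`, `canDeg ℂ L` is the degree
`2 g - 2` of its canonical divisor, and `pht ℂ x` is the degree of the line bundle `f^* O(1)` for
the morphism `f` from this curve to `X̄` with the homogeneous coordinates `x`.
-/

set_option autoImplicit false

namespace Pool.Agent.Results.MP_4dacf8_ag.GenPowersSplitPairs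

open MvPolynomial FF Pool.Agent.H917 Pool.Agent.H917.Lg Pool.Agent.H917.Mg
  Pool.Agent.W603.LV Pool.Agent.W603.PV
open Pool.Agent.W602.GT (LogGeneralType)

variable {n : ℕ}

/-- the height of the point `x` over the finite extension `L` of `F`, with respect to `O(1)` -/
noncomputable def height (F : Type) [Field F] {L : Type} [Field L] [Algebra ℂ L] [Algebra F L]
    (x : Fin (n + 1) → L) : ℝ := (pht ℂ x : ℝ) / Module.finrank F L

/-- `χ(P) = (2 g - 2) / [L : F]`, where `g` is the genus of the curve with the function field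
`L` -/
noncomputable def chi (F L : Type) [Field F] [Field L] [Algebra ℂ L] [Algebra F L] : ℝ :=
  (canDeg ℂ L : ℝ) / Module.finrank F L

/-- the truncated counting function: the number of the points of the curve which are mapped to the
boundary, divided by `[L : F]` -/
noncomputable def counting (B : Fin (n + 1) → Finset (Fin (n + 1))) (F : Type) [Field F] {L : Type}
    [Field L] [Algebra ℂ L] [Algebra F L] (x : Fin (n + 1) → L) : ℝ :=
  (Set.ncard {P : Place ℂ L | BdP B x P} : ℝ) / Module.finrank F L

/-- The height inequality for the points, not in `G = 0`, of the complement of the boundary in the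
projective variety with the ideal `q`, over the finite extensions `L` of `F`, with the constants
`b` and `b'`. -/
def HeightInequality (F : Type) [Field F] [Algebra ℂ F] (q : Ideal (MvPolynomial (Fin (n + 1)) ℂ))
    (B : Fin (n + 1) → Finset (Fin (n + 1))) (G : MvPolynomial (Fin (n + 1)) ℂ) (b b' : ℝ) :
    Prop :=
  ∀ (L : Type) [Field L] [Algebra ℂ L] [IsFF ℂ L] [Algebra F L] [IsScalarTower ℂ F L]
    [FiniteDimensional F L] (x : Fin (n + 1) → L), x ≠ 0 → (∀ H ∈ q, aeval x H = 0) →
    OffB B x → aeval x G ≠ 0 → height F x ≤ b * (chi F L + counting B F x) + b'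

/-- only finitely many points are mapped to the boundary -/
theorem finite_bd {B : Fin (n + 1) → Finset (Fin (n + 1))} {L : Type} [Field L] [Algebra ℂ L]
    [IsFF ℂ L] (x : Fin (n + 1) → L) : {P : Place ℂ L | BdP B x P}.Finite := by
  classical
  obtain ⟨T, hT⟩ := exists_supp (k := ℂ) (Finset.univ : Finset (Fin (n + 1) × Fin (n + 1)))
    fun ij => x ij.1 / x ij.2
  refine T.finite_toSet.subset ?_
  rintro P ⟨j, hj, -, b, hb, hord⟩
  exact hT (b, j) (Finset.mem_univ _) P (by
    change P.ord (x b / x j) ≠ 0
    omega)

/-- the height inequality from the linear bound -/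
theorem inequality_of_lin {q : Ideal (MvPolynomial (Fin (n + 1)) ℂ)}
    {B : Fin (n + 1) → Finset (Fin (n + 1))} {G : MvPolynomial (Fin (n + 1)) ℂ}
    (h : LinBoundB q B G) : ∃ b : ℝ, 0 ≤ b ∧ ∀ (F : Type) [Field F] [Algebra ℂ F] [IsFF ℂ F],
      HeightInequality F q B G b (2 * b) := by
  obtain ⟨b, hb⟩ := h
  refine ⟨b, Nat.cast_nonneg b, fun F _ _ _ L _ _ _ _ _ _ x hx hX hoff hG => ?_⟩
  have hfin := finite_bd (B := B) x
  have h1 := hb L hfin.toFinset x ⟨hx, hX, hoff, fun P hP h0 => hP (hfin.mem_toFinset.2 h0), hG⟩
  have hn : 1 ≤ Module.finrank F L := Module.finrank_pos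
  have hge := Pool.Agent.H917.canDeg_ge (F := L)
  have hcard : hfin.toFinset.card = Set.ncard {P : Place ℂ L | BdP B x P} :=
    (Set.ncard_eq_toFinset_card _ hfin).symm
  rw [hcard] at h1
  have h2 : max (canDeg ℂ L + (Set.ncard {P : Place ℂ L | BdP B x P} : ℤ)) 0 ≤
      canDeg ℂ L + (Set.ncard {P : Place ℂ L | BdP B x P} : ℤ) + 2 * Module.finrank F L := by
    rcases max_cases (canDeg ℂ L + (Set.ncard {P : Place ℂ L | BdP B x P} : ℤ)) 0 with h | h <;>
      omega
  have h3 : pht ℂ x ≤ b * (canDeg ℂ L + (Set.ncard {P : Place ℂ L | BdP B x P} : ℤ) +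
      2 * Module.finrank F L) :=
    h1.trans (mul_le_mul_of_nonneg_left h2 (Int.natCast_nonneg b))
  have h4 : (pht ℂ x : ℝ) ≤ b * (canDeg ℂ L + (Set.ncard {P : Place ℂ L | BdP B x P} : ℝ) +
      2 * Module.finrank F L) := by exact_mod_cast h3
  have hn' : (0 : ℝ) < Module.finrank F L := by exact_mod_cast hn
  unfold height chi counting
  rw [div_le_iff₀ hn']
  refine h4.trans (le_of_eq ?_)
  field_simp

/-- Let `p` be the homogeneous ideal of a projective variety `X̄`, with the boundary `D` given by
the boundary coordinates `B`, such that the `m`-th symmetric power of the logarithmic cotangent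
sheaf of `(X̄, D)` is generated by global sections, for some `m ≥ 1`. Let `V̄` be an irreducible
closed subvariety of `X̄` which is not contained in `D` (such as `X̄` itself, if it is irreducible),
with the homogeneous prime ideal `q`, the function field `K` of transcendence degree `w` and the
generic point `y`, and `V = V̄ \ D`. If `V` is of log general type, then there are a proper closed
subset `G = 0` of `V` and a constant `b` such that, for all function fields `F` of curves, all
finite extensions `L` of `F` and all points `P` of `V` over `L` which are not in `G = 0`,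
`h(P) ≤ b (χ(P) + N(P)) + 2 b`.

If the boundary of `V` is a hypersurface section `Q = 0` of `V̄` (so `V` is affine; for example if `D`
is a hypersurface section of `X̄`), then `V` is of log general type if and only if this is the case, and if and only if there is a proper closed subset `G = 0` such that for
every `F` the inequality `h(P) ≤ b (χ(P) + N(P)) + b'` holds with some constants `b`, `b'`. -/
theorem result (p : Ideal (MvPolynomial (Fin (n + 1)) ℂ))
    (B : Fin (n + 1) → Finset (Fin (n + 1))) (hB : BdC p B) {m : ℕ} (hm : 1 ≤ m)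
    (hg : BGenerated p B m)
    (q : Ideal (MvPolynomial (Fin (n + 1)) ℂ)) (hqp : q.IsPrime)
    (hq : ∀ H ∈ q, ∀ d, homogeneousComponent d H ∈ q) (hpq : p ≤ q) (K : Type) [Field K]
    [Algebra ℂ K] (w : ℕ) (y : Fin (n + 1) → K) (hy : SubVarB q B K w y)
    (hf : ∀ H : MvPolynomial (Fin (n + 1)) ℂ, (∃ d, H.IsHomogeneous d) → aeval y H = 0 → H ∈ q) :
    (LogGeneralType ℂ K w (BdP B y) →
      ∃ G : MvPolynomial (Fin (n + 1)) ℂ, (∃ d, G.IsHomogeneous d) ∧ G ∉ q ∧
        ∃ b : ℝ, 0 ≤ b ∧ ∀ (F : Type) [Field F] [Algebra ℂ F] [IsFF ℂ F],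
          HeightInequality F q B G b (2 * b)) ∧
    (∀ (Q : MvPolynomial (Fin (n + 1)) ℂ) (d : ℕ), 1 ≤ d → Q.IsHomogeneous d → Bdry q Q B →
      List.TFAE [LogGeneralType ℂ K w (BdP B y),
        ∃ G : MvPolynomial (Fin (n + 1)) ℂ, (∃ d, G.IsHomogeneous d) ∧ G ∉ q ∧
          ∃ b : ℝ, 0 ≤ b ∧ ∀ (F : Type) [Field F] [Algebra ℂ F] [IsFF ℂ F],
            HeightInequality F q B G b (2 * b),
        ∃ G : MvPolynomial (Fin (n + 1)) ℂ, (∃ d, G.IsHomogeneous d) ∧ G ∉ q ∧
          ∀ (F : Type) [Field F] [Algebra ℂ F] [IsFF ℂ F], ∃ b b' : ℝ, 0 ≤ b ∧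
            HeightInequality F q B G b b']) := by
  have h1 : LogGeneralType ℂ K w (BdP B y) →
      ∃ G : MvPolynomial (Fin (n + 1)) ℂ, (∃ d, G.IsHomogeneous d) ∧ G ∉ q ∧
        ∃ b : ℝ, 0 ≤ b ∧ ∀ (F : Type) [Field F] [Algebra ℂ F] [IsFF ℂ F],
          HeightInequality F q B G b (2 * b) := by
    intro h
    obtain ⟨G, hG, hGq, h2⟩ := linBoundB_of_lgt hqp hq (hB.res hpq) hm (hg.res hpq) hy hf h
    exact ⟨G, hG, hGq, inequality_of_lin h2⟩
  refine ⟨h1, fun Q d hd hQ hQB => ?_⟩
  tfae_have 1 → 2 := h1
  tfae_have 2 → 3 := by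
    rintro ⟨G, hG, hGq, b, hb, h⟩
    exact ⟨G, hG, hGq, fun F _ _ _ => ⟨b, 2 * b, hb, h F⟩⟩
  tfae_have 3 → 1 := by
    rintro ⟨G, hG, hGq, h⟩
    obtain ⟨b, b', hb, h⟩ := h (RatFunc ℂ)
    refine lgt_of_bounded hqp hq hd hQ hQB hm (hg.res hpq) hy hf hG hGq
      (Or.inl fun T hT => ⟨⌈b * (canDeg ℂ (RatFunc ℂ) + 2) + b'⌉, fun x hx => ?_⟩)
    have h2 := h (RatFunc ℂ) x hx.ne hx.mem hx.off hx.gne
    unfold height chi counting at h2
    rw [Module.finrank_self, Nat.cast_one, div_one, div_one, div_one] at h2
    have h3 : Set.ncard {P : Place ℂ (RatFunc ℂ) | BdP B x P} ≤ 2 := by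
      rw [← hT, ← Set.ncard_coe_finset T]
      refine Set.ncard_le_ncard (fun P hP => ?_) T.finite_toSet
      by_contra hPT
      exact hx.bd P hPT hP
    have h4 : (Set.ncard {P : Place ℂ (RatFunc ℂ) | BdP B x P} : ℝ) ≤ 2 := by exact_mod_cast h3
    have h5 : (pht ℂ x : ℝ) ≤ b * (canDeg ℂ (RatFunc ℂ) + 2) + b' := by
      refine h2.trans ?_
      have := mul_le_mul_of_nonneg_left (add_le_add_right h4 (canDeg ℂ (RatFunc ℂ) : ℝ)) hb
      linarith
    exact_mod_cast h5.trans (Int.le_ceil _)
  tfae_finish

end Pool.Agent.Results.MP_4dacf8_ag.GenPowersSplitPairs
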