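import Pool.Agent.H916.LVoj

/-!
# Vojta's height inequality for pairs over function fields which are fibred by curves

`F` is a function field of one variable over an algebraically closed field `k` of characteristic
zero. `X` is an integral projective variety over `F`, of arbitrary dimension and with arbitrary
singularities, with the function field `K` and the generic point `x` (homogeneous coordinates in `K`;
`coords F x = ⊤` says that their ratios generate `K` over `F`), and `D` is the proper closed subset of
`X` which is given by the forms `Q i` over `F`. Nothing needs to be defined over `k`.

`VojtaIneq k x Q` is the inequality of the conjecture: outside of a proper closed subset of `X` the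
height of the points `v` of `X ∖ D` over finite extensions `L` of `F` is at most
`A (2 g(L) - 2 + N(v)) + C [L : F]`, where `N(v)` is the number of the places of `L` at which `v` meets
`D` (`Meets Q v P`: at `P` the values of all forms `Q i` at `v` are smaller than those of general
forms of the same degree). After division by `[L : F]` this is the inequality of Q1, because the
height with respect to `K_X + D` is at most a multiple of the height `pht` plus a constant.

`(Y l, D' l)` are finitely many such pairs, with the function fields `B l`, the generic points `y l`
and the forms `Q' l c`, and `φ l : B l → K` are embeddings, that is, dominant rational maps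
`X ⇢ Y l`. `PairMap` says that they are maps of pairs: a point of `X` which corresponds to a point of
`D' l` under the closure of the graph is a point of `D` (for a morphism this means that `X ∖ D` is
mapped to `Y l ∖ D' l`). The compositum of the `B l` is the function field of the image `Z` of `X` in
the product of the `Y l`. It is assumed that one of the following conditions is satisfied:

* `(X, D)` is of log general type and `dim X ≤ dim Z + 1`;
* `LogHypFibres`: `dim X = dim Z`, or the geometric generic fibre of `X ⇢ Z` is a curve which is
  hyperbolic after removing the points of `D`, that is, `2 g - 2` plus the number of these points is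
  positive.

**Theorem.** (I) If Vojta's inequality is true for all pairs `(Y l, D' l)` then it is true
for `(X, D)`.

(II) Therefore Vojta's inequality is true for all pairs in the class `LogIterated` of iterated
fibrations by hyperbolic curves: the smallest class such that `(X, D)` belongs to the class if there
are finitely many members `(Y l, D' l)` of the class as above. This class contains the curves of log
general type (there are no `Y l`), the pairs `(X, D)` of log general type of dimension two with a
dominant rational map of pairs to a pair of dimension one of log general type, and in every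
dimension all pairs `(X, D)` of log general type with rational maps of pairs to members of the class
such that `dim X ≤ dim Z + 1`.

Proof. (1) On a pair of log general type the geometric generic fibre of a fibration by curves is
hyperbolic after removing the points of `D`: the logarithmic pluricanonical forms of `X` would
otherwise be constant along the fibres.

(2) Relative height inequality: there is `A` with
`h(v) ≤ A (max (2 g(L) - 2, 0) + N(v) + ∑ h(v l) + [L : F])` for the points `v` of `X ∖ D` outside of a
proper closed subset, where `v l` is the image of `v` in `Y l`. Otherwise there is in an ultraproduct of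
the fields `L` a derivation `δ` whose constants contain the function field of `Z`, and a point of the
generic fibre `M` of `X ⇢ Z` which is not defined over the field of the constants, such that the
orders of the coordinates and of `δ` are small multiples of the height except for simple poles, which
are counted by `N`. The derivation `δ` gives a vector field on `M` with values in a large field, and
with the Wronskians of the logarithmic pluricanonical systems of `M` and auxiliary polynomials
(Siegel's lemma) it is regular and logarithmic along the points of `D`, which is impossible because
`M ∖ D` is hyperbolic.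

(3) `N` for `(Y l, D' l)` and `v l` is at most `N(v) + c [L : F]`, by the Nullstellensatz on the closure
of the graph.

`coords`, `LogGeneralType` : `Pool/Graph/R_seed8/W602/GT/`; `OnVar` : `Pool/Graph/R_seed8/Y216/Point.lean`;
`pht`, `canDeg` : heights relative to `L` and `2 g(L) - 2`; `Meets`, `cuspFun` (the functions
`x j ^ d / Q i`) : `Pool/Agent/H916/LRat.lean`; `LogHypFibres` : `Pool/Agent/H916/LRing.lean`;
`FibreField` : `Pool/Agent/H916/Fib.lean`; `PairMap`, `InClosure` : `Pool/Agent/H916/LPair.lean`;
`VojtaIneq`, `LogIterated` : `Pool/Agent/H916/LVoj.lean`.
-/

set_option autoImplicit false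
set_option linter.overlappingInstances false

open FF Pool.Agent.H916 MvPolynomial
open Pool.Agent.W602.GT (coords IsForm LogGeneralType)

namespace Pool.Agent.Results.MP_4dacf8_ag.LogCurveFibrations

/-- **Vojta's height inequality for pairs which are fibred by curves.** See the explanation at the
beginning of the file. -/
theorem result {k F K : Type} [Field k] [IsAlgClosed k] [CharZero k] [Field F] [Algebra k F]
    [IsFF k F] [Field K] [Algebra F K] {M : ℕ} {x : Fin (M + 1) → K} (hx : x ≠ 0)
    (hgen : coords F x = ⊤) {ι : Type} [Finite ι] {Q : ι → MvPolynomial (Fin (M + 1)) F}
    (hQ : ∀ i, IsForm (Q i)) (hQx : ∃ i, aeval x (Q i) ≠ 0) :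
    (∀ (r : ℕ) (B : Fin r → Type) [∀ l, Field (B l)] [∀ l, Algebra F (B l)] (N : Fin r → ℕ)
      (y : ∀ l, Fin (N l + 1) → B l) (κ : Fin r → Type)
      (Q' : ∀ l, κ l → MvPolynomial (Fin (N l + 1)) F) (φ : ∀ l, B l →ₐ[F] K),
      (∀ l, y l ≠ 0 ∧ coords F (y l) = ⊤ ∧ Finite (κ l) ∧ (∀ c, IsForm (Q' l c)) ∧
        ∃ c, aeval (y l) (Q' l c) ≠ 0) →
      (∀ l, PairMap x Q (fun j => φ l (y l j)) (Q' l)) →
      (((∃ n, LogGeneralType F K n fun P => Meets Q x P) ∧
          Algebra.trdeg F K ≤ Algebra.trdeg F ↥(⨆ l, (φ l).fieldRange) + 1) ∨
        LogHypFibres (⨆ l, (φ l).fieldRange).toSubfield (cuspFun x Q)) →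
      ((∀ l, VojtaIneq k (y l) (Q' l)) → VojtaIneq k x Q) ∧
      ((∀ l, LogIterated F (y l) (Q' l)) → LogIterated F x Q)) ∧
    (LogIterated F x Q → VojtaIneq k x Q) := by
  have hF0 : CharZero F := charZero_of_injective_algebraMap (algebraMap k F).injective
  refine ⟨fun r B _ _ N y κ Q' φ hY hmap hor => ?_, fun h => h.vojta⟩
  have hfib : LogHypFibres (⨆ l, (φ l).fieldRange).toSubfield (cuspFun x Q) := by
    rcases hor with ⟨⟨n, hn⟩, htr⟩ | h
    · exact logHyp_of_lgt' hx hgen hQx hn htr
    · exact h
  refine ⟨fun hV => ?_, fun hI => LogIterated.step hx hgen hQ hQx hI φ hmap hfib⟩
  have hy : ∀ l, (fun i => φ l (y l i)) ≠ 0 := by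
    intro l h0
    apply (hY l).1
    funext i
    have h1 := congrFun h0 i
    exact (φ l).injective (by rw [Pi.zero_apply, map_zero]; exact h1)
  have hC : (⨆ l, coords F fun i => φ l (y l i)) = ⨆ l, (φ l).fieldRange := by
    congr 1
    funext l
    rw [coords_map, (hY l).2.1, ← AlgHom.fieldRange_eq_map]
  refine vojta_multi hx hgen hQ hQx hy (fun l => (hY l).2.2.1) (fun l => (hY l).2.2.2.1)
    (fun l => ?_) hmap (by rw [hC]; exact hfib) fun l => vojta_hom (φ l) (hV l)
  obtain ⟨c, hc⟩ := (hY l).2.2.2.2
  exact ⟨c, fun h0 => hc ((val_hom_eq (φ l) (y l) (Q' l c)).1 h0)⟩

end Pool.Agent.Results.MP_4dacf8_ag.LogCurveFibrations
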